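import Pool.Agent.helper66.PX.Spec

set_option autoImplicit false

namespace Pool.Agent.PX

universe u v w

theorem EXT_congr {K : Type u} {R : Type v} [CommRing K] [Ring R] [Algebra K R] (c : List ℕ → K) (s : List ℕ)
    (x y : ℕ → R) (h : ∀ i ∈ s, x i = y i) : EV c s x = EV c s y := by
  unfold EV
  refine Finset.sum_congr rfl fun w hw => ?_
  have hw' : w.Perm s := List.mem_permutations.1 (List.mem_toFinset.1 hw)
  have : w.map x = w.map y := List.map_congr_left fun i hi => h i (hw'.mem_iff.1 hi)
  rw [this]

theorem EXT_map_update {R : Type v} (x : ℕ → R) (j : ℕ) (v : R) (w : List ℕ) (h : j ∉ w) :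
    w.map (Function.update x j v) = w.map x := by
  refine List.map_congr_left fun i hi => ?_
  have : i ≠ j := fun e => h (e ▸ hi)
  exact Function.update_of_ne this v x

theorem EXT_split {K : Type u} {R : Type v} [CommRing K] [Ring R] [Algebra K R] (c : List ℕ → K) (s : List ℕ)
    (hs : s.Nodup) (x : ℕ → R) (j : ℕ) (hj : j ∈ s) :
    ∃ P Q : List ℕ → R, (∀ v : R, EV c s (Function.update x j v) =
      ∑ w ∈ s.permutations.toFinset, c w • (P w * (v * Q w))) ∧
      ∀ γ : R, (∀ i, i ≠ j → γ * x i = x i * γ) → ∀ w ∈ s.permutations.toFinset, γ * P w = P w * γ := by
  have key : ∀ w ∈ s.permutations.toFinset, ∃ p q : R, (∀ v : R,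
      (w.map (Function.update x j v)).prod = p * (v * q)) ∧
      ∀ γ : R, (∀ i, i ≠ j → γ * x i = x i * γ) → γ * p = p * γ := by
    intro w hw
    have hw' : w.Perm s := List.mem_permutations.1 (List.mem_toFinset.1 hw)
    have hjw : j ∈ w := hw'.mem_iff.2 hj
    have hnd : w.Nodup := hw'.nodup_iff.2 hs
    obtain ⟨a, b, rfl⟩ := List.append_of_mem hjw
    have hnd2 := List.nodup_append.1 hnd
    have ha : j ∉ a := fun h => hnd2.2.2 j h j (by simp) rfl
    have hb : j ∉ b := (List.nodup_cons.1 hnd2.2.1).1
    refine ⟨(a.map x).prod, (b.map x).prod, ?_, ?_⟩
    · intro v
      rw [List.map_append, List.map_cons, List.prod_append, List.prod_cons, EXT_map_update x j v a ha,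
        EXT_map_update x j v b hb, Function.update_self]
    · intro γ hγ
      have : ∀ l : List ℕ, j ∉ l → γ * (l.map x).prod = (l.map x).prod * γ := by
        intro l
        induction l with
        | nil => intro _; simp
        | cons i l ih =>
          intro h
          have h1 : i ≠ j := fun e => h (by rw [e]; exact List.mem_cons_self)
          have h2 : j ∉ l := fun e => h (List.mem_cons_of_mem _ e)
          rw [List.map_cons, List.prod_cons, ← mul_assoc, hγ i h1, mul_assoc, ih h2, mul_assoc]
      exact this a ha
  choose! P Q hP hQ using key
  refine ⟨P, Q, ?_, ?_⟩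
  · intro v
    unfold EV
    exact Finset.sum_congr rfl fun w hw => by rw [hP w hw v]
  · intro γ hγ w hw
    exact hQ w hw γ hγ

theorem EXT : EXT_stmt.{u, v} := by
  intro k R _ _ _ S Γ h0 hc hcc s c hs hS x hx
  set T : Set R := {y : R | ∃ γ ∈ Γ, ∃ a ∈ S, y = γ * a} with hT
  -- elements of `Γ` commute with the span
  have hcs : ∀ γ ∈ Γ, ∀ y ∈ Submodule.span k T, γ * y = y * γ := by
    intro γ hγ y hy
    induction hy using Submodule.span_induction with
    | mem y hy =>
      obtain ⟨δ, hδ, a, ha, rfl⟩ := hy
      rw [← mul_assoc, hcc γ hγ δ hδ, mul_assoc, hc γ hγ a ha, mul_assoc]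
    | zero => simp
    | add y z _ _ h1 h2 => rw [mul_add, add_mul, h1, h2]
    | smul r y _ h1 => rw [mul_smul_comm, smul_mul_assoc, h1]
  have main : ∀ F : Finset ℕ, ∀ x : ℕ → R, (∀ i ∈ F, x i ∈ Submodule.span k T) → (∀ i, i ∉ F → x i ∈ S) →
      EV c s x = 0 := by
    intro F
    induction F using Finset.induction_on with
    | empty => intro x _ h2; exact hS x fun i => h2 i (Finset.notMem_empty i)
    | insert j F hjF ih =>
      intro x h1 h2
      by_cases hj : j ∈ s
      · obtain ⟨P, Q, hPQ, hcm⟩ := EXT_split c s hs x j hj
        have hstep : ∀ v ∈ Submodule.span k T, EV c s (Function.update x j v) = 0 := by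
          intro v hv
          induction hv using Submodule.span_induction with
          | mem v hv =>
            obtain ⟨γ, hγ, a, ha, rfl⟩ := hv
            have e1 : EV c s (Function.update x j a) = 0 := by
              refine ih _ ?_ ?_
              · intro i hi
                have : i ≠ j := fun e => hjF (e ▸ hi)
                rw [Function.update_of_ne this]
                exact h1 i (Finset.mem_insert_of_mem hi)
              · intro i hi
                by_cases e : i = j
                · subst e
                  rw [Function.update_self]
                  exact ha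
                · rw [Function.update_of_ne e]
                  exact h2 i (by
                    intro h
                    rcases Finset.mem_insert.1 h with h | h
                    · exact e h
                    · exact hi h)
            have hγx : ∀ i, i ≠ j → γ * x i = x i * γ := by
              intro i hi
              by_cases hF : i ∈ F
              · exact hcs γ hγ _ (h1 i (Finset.mem_insert_of_mem hF))
              · refine hc γ hγ _ (h2 i ?_)
                intro h
                rcases Finset.mem_insert.1 h with h | h
                · exact hi h
                · exact hF h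
            have e2 : EV c s (Function.update x j (γ * a)) = γ * EV c s (Function.update x j a) := by
              rw [hPQ, hPQ, Finset.mul_sum]
              refine Finset.sum_congr rfl fun w hw => ?_
              rw [mul_smul_comm, ← mul_assoc γ (P w), hcm γ hγx w hw]
              simp only [mul_assoc]
            rw [e2, e1, mul_zero]
          | zero =>
            rw [hPQ]
            simp
          | add y z _ _ h3 h4 =>
            rw [hPQ] at h3 h4 ⊢
            have : ∀ w : List ℕ, c w • (P w * ((y + z) * Q w)) = c w • (P w * (y * Q w)) + c w • (P w * (z * Q w)) := by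
              intro w
              rw [add_mul, mul_add, smul_add]
            simp only [this, Finset.sum_add_distrib, h3, h4, add_zero]
          | smul r y _ h3 =>
            rw [hPQ] at h3 ⊢
            have : ∀ w : List ℕ, c w • (P w * ((r • y) * Q w)) = r • (c w • (P w * (y * Q w))) := by
              intro w
              rw [smul_mul_assoc, mul_smul_comm, smul_comm]
            simp only [this, ← Finset.smul_sum, h3, smul_zero]
        have := hstep (x j) (h1 j (Finset.mem_insert_self j F))
        rwa [Function.update_eq_self] at this
      · rw [EXT_congr c s x (Function.update x j 0) fun i hi => by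
          have : i ≠ j := fun e => hj (e ▸ hi)
          rw [Function.update_of_ne this]]
        refine ih _ ?_ ?_
        · intro i hi
          have : i ≠ j := fun e => hjF (e ▸ hi)
          rw [Function.update_of_ne this]
          exact h1 i (Finset.mem_insert_of_mem hi)
        · intro i hi
          by_cases e : i = j
          · subst e
            rw [Function.update_self]
            exact h0
          · rw [Function.update_of_ne e]
            refine h2 i ?_
            intro h
            rcases Finset.mem_insert.1 h with h | h
            · exact e h
            · exact hi h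
  classical
  rw [EXT_congr c s x (fun i => if i ∈ s then x i else 0) fun i hi => by rw [if_pos hi]]
  refine main s.toFinset _ ?_ ?_
  · intro i hi
    rw [if_pos (List.mem_toFinset.1 hi)]
    exact hx i
  · intro i hi
    rw [if_neg (fun h => hi (List.mem_toFinset.2 h))]
    exact h0

end Pool.Agent.PX
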